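import Pool.Agent.J6H9.EU.Stm

/-!
# Project EX (MP_f6e960_lc, fourth theorem): general weights

`D_n` consecutive intervals, `w > 0` weights with total mass on `D_n` in `[c, 1]` and `max w` on `D_n` tending to zero:
`W w d` = the sets `A` with `∑_{x ∈ A ∩ D_n} w x → 0` (every Erdős–Ulam ideal is of this form up to isomorphism).
THEOREM: `Suf w d` implies that there is an increasing-invariant copy, and this implies `Nec w d`.
-/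

set_option autoImplicit false

namespace Pool.Agent.J6H9.EX

open Filter Topology Pool.Agent.J6H9.EU

/-- the interval number `n` as a finite set -/
def Dn (d : ℕ → ℕ) (n : ℕ) : Finset ℕ := Finset.Ico (st d n) (st d n + d n)

open Classical in
/-- the ideal of the sets `A` with `∑_{x ∈ A ∩ D_n} w x → 0` -/
noncomputable def W (w : ℕ → ℝ) (d : ℕ → ℕ) : Set (Set ℕ) :=
  {A | Tendsto (fun n => ∑ x ∈ (Dn d n).filter (· ∈ A), w x) atTop (𝓝 0)}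

/-- the conditions on the weights -/
structure Meas (w : ℕ → ℝ) (d : ℕ → ℕ) : Prop where
  pos : ∀ x, 0 < w x
  dpos : ∀ n, 0 < d n
  le : ∀ n, ∑ x ∈ Dn d n, w x ≤ 1
  ge : ∃ c : ℝ, 0 < c ∧ ∀ n, c ≤ ∑ x ∈ Dn d n, w x
  small : ∀ ε : ℝ, 0 < ε → ∃ M : ℕ, ∀ n, M ≤ n → ∀ x ∈ Dn d n, w x ≤ ε

/-- `C` injects into `T` with increasing weights -/
def Emb (w : ℕ → ℝ) (C : Finset ℕ) (T : Set ℕ) : Prop :=
  ∃ j : ℕ → ℕ, Set.InjOn j C ∧ ∀ c ∈ C, j c ∈ T ∧ w c ≤ w (j c)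

/-- sufficient condition: for each `δ` there is `K` such that for all `m`, apart from `K` of the `n`, the subsets of
`D_m` which inject with increasing weights into the union of the other `D_n` have mass at most `δ` -/
def Suf (w : ℕ → ℝ) (d : ℕ → ℕ) : Prop := ∀ δ : ℝ, 0 < δ → ∃ K : ℕ, ∀ m : ℕ, ∃ N : Finset ℕ, N.card ≤ K ∧
  ∀ C : Finset ℕ, C ⊆ Dn d m → Emb w C {x | ∀ n ∈ N, x ∉ Dn d n} → ∑ x ∈ C, w x ≤ δ

/-- necessary condition: for each `δ` there is `K` such that for all `m` at most `K` of the `D_n` are such that a subset of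
`D_m` of mass at least `δ` injects with increasing weights into `D_n` -/
def Nec (w : ℕ → ℝ) (d : ℕ → ℕ) : Prop := ∀ δ : ℝ, 0 < δ → ∃ K : ℕ, ∀ (m : ℕ) (N : Finset ℕ),
  (∀ n ∈ N, ∃ C : Finset ℕ, C ⊆ Dn d m ∧ Emb w C (Dn d n : Set ℕ) ∧ δ ≤ ∑ x ∈ C, w x) → N.card ≤ K

/-- **EX-EU** (100 lines; like helper46's `Pool/Agent/J6H46/EU/Den.lean`). PROOF. `f x = 2 ^ n * w x` for `x ∈ D_n`. -/
def S_EU : Prop := ∀ (w : ℕ → ℝ) (d : ℕ → ℕ), Meas w d → IsErdosUlam (W w d)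

/-- **EX-SUF** (150 lines). PROOF. `δ x` = the number of the `y` with `w y > w x` (finite, tends to infinity);
`Pool.Agent.J6H24.EU.Srt.main : S_SRT` gives a permutation `φ` with `δ x < δ y → φ x < φ y`; so `φ x ≤ φ y → w y ≤ w x`.
Let `B ∈ W w d` and let `|φ(C) ∩ n| ≤ |φ(B) ∩ n|` for all `n`; the map sending the element number `k` of `φ(C)` to that of
`φ(B)` (`Nat.nth`, `Nat.count`) gives an injection `j : C → B` with `φ (j c) ≤ φ c`, so `w c ≤ w (j c)`. Let `η > 0`, `K`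
for `δ = η / 3`; `∑_{B ∩ D_n} w ≤ η / (3 (K + 1))` for `n ≥ n₁`, `t = st n₁`, and `w ≤ η / (3 (t + 1))` on `D_m` (`m`
large). The `c ∈ C ∩ D_m` with `j c < t` have mass at most `η / 3`; those with `j c ∈ D_n`, `n ∈ N`, `n ≥ n₁` at most
`∑_{n ∈ N} ∑_{B ∩ D_n} w ≤ η / 3`; the others at most `δ`. -/
def S_SUF : Prop := ∀ (w : ℕ → ℝ) (d : ℕ → ℕ), Meas w d → Suf w d →
  ∃ φ : Equiv.Perm ℕ, IncInv ((fun A : Set ℕ => φ '' A) '' W w d)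

/-- **EX-GRD** (50 lines), greedy assignment. PROOF. Induction on `X`: for a new `c` take the `n ∈ Λ c` with the smallest
load so far; the sum of all the loads is at most `∑ v`, so the smallest of `≥ R` of them is at most `(∑ v) / R`. -/
def S_GRD : Prop := ∀ (X : Finset ℕ) (v : ℕ → ℝ) (Λ : ℕ → Finset ℕ) (κ : ℕ → ℕ → ℝ) (R : ℕ) (wm : ℝ), 0 < R →
  0 ≤ wm → (∀ c ∈ X, 0 ≤ v c) → (∀ c ∈ X, R ≤ (Λ c).card) →
  (∀ c ∈ X, ∀ n ∈ Λ c, 0 ≤ κ c n ∧ κ c n ≤ v c ∧ κ c n ≤ wm) →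
  ∃ a : ℕ → ℕ, (∀ c ∈ X, a c ∈ Λ c) ∧ ∀ n, ∑ c ∈ X.filter (fun c => a c = n), κ c n ≤ (∑ c ∈ X, v c) / R + wm

/-- the finite configurations of the median trick -/
def Conf (w : ℕ → ℝ) (d : ℕ → ℕ) (φ : Equiv.Perm ℕ) (η ε : ℝ) (M : ℕ) (B C : Finset ℕ) : Prop :=
  (∀ x ∈ B, st d M ≤ x) ∧ (∀ x ∈ C, st d M ≤ x) ∧
    (∃ j : ℕ → ℕ, Set.InjOn j C ∧ ∀ c ∈ C, j c ∈ B ∧ φ (j c) ≤ φ c) ∧
    (∀ n, ∑ x ∈ (Dn d n).filter (· ∈ B), w x ≤ ε) ∧ ∃ n, η ≤ ∑ x ∈ (Dn d n).filter (· ∈ C), w x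

/-- **EX-MED** (150 lines; uses `S_GRD`), pointwise median trick. PROOF. Given `ε, M` (enlarge `M` so that `w ≤ ε / 2` on
`D_n`, `n ≥ M`), let `R` be large (`2 / (δ R) ≤ ε / 2`) and `K' ≥ 4 R / δ`; there are `m` and a set `N` of exactly `K'`
numbers `n ≥ M` with `C_n ⊆ D_m`, `j_n : C_n → D_n` injective, `w c ≤ w (j_n c)`, mass of `C_n` at least `δ`. Removing
the `c` with `w (j_n c) > (2 / δ) w c` (mass `< δ / 2`) we get `C'_n` of mass `≥ δ / 2`. `N_c = {n ∈ N : c ∈ C'_n}`;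
`∑_c w c |N_c| ≥ K' δ / 2`. The number of the `n ∈ N_c` for which less than `R` of the `n' ∈ N_c` have
`φ (j_n' c) < φ (j_n c)` is at most `R`; so the sum over `n ∈ N` of the masses of
`E_n = {c ∈ C'_n : at least R of the n' ∈ N_c have φ (j_n' c) < φ (j_n c)}` is at least `K' δ / 2 - R ≥ K' δ / 4` (mass of
`D_m` is `≤ 1`), and some `E_n₀` has mass `≥ δ / 4`. `C = j_n₀ (E_n₀)`. For `c ∈ E_n₀` let `Λ c` be the set of those `n'`.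
`S_GRD` with `X = E_n₀`, `v c = (2 / δ) w c`, `κ c n = w (j_n c)`, `wm = ε / 2` gives `a`;
`B = {j_(a c) c : c ∈ E_n₀}`, loads `≤ (2 / δ) / R + ε / 2 ≤ ε`; `j_n₀ c ↦ j_(a c) c` is injective. -/
def S_MED : Prop := S_GRD → ∀ (w : ℕ → ℝ) (d : ℕ → ℕ), Meas w d → ∀ δ : ℝ, 0 < δ →
  (∀ K : ℕ, ∃ (m : ℕ) (N : Finset ℕ), K < N.card ∧
    ∀ n ∈ N, ∃ C : Finset ℕ, C ⊆ Dn d m ∧ Emb w C (Dn d n : Set ℕ) ∧ δ ≤ ∑ x ∈ C, w x) →
  ∀ (φ : Equiv.Perm ℕ) (ε : ℝ), 0 < ε → ∀ M : ℕ, ∃ B C : Finset ℕ, Conf w d φ (δ / 4) ε M B C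

/-- **EX-UNI** (150 lines; like helper45's `Pool/Agent/J6H45/EU/Uni.lean`), gluing. PROOF. Choose `B_k, C_k` for
`ε = 1 / (k + 1)` and `M_k` beyond the earlier ones; `B = ⋃ B_k ∈ W w d`, `C = ⋃ C_k ∉ W w d`, and the injections give
`|φ(C) ∩ n| ≤ |φ(B) ∩ n|` (choose `M_k` such that the `B_k ∪ C_k` meet disjoint sets of the `D_n`). -/
def S_UNI : Prop := ∀ (w : ℕ → ℝ) (d : ℕ → ℕ), Meas w d → ∀ (η : ℝ) (φ : Equiv.Perm ℕ), 0 < η →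
  (∀ ε : ℝ, 0 < ε → ∀ M : ℕ, ∃ B C : Finset ℕ, Conf w d φ η ε M B C) →
  ¬ IncInv ((fun A : Set ℕ => φ '' A) '' W w d)

end Pool.Agent.J6H9.EX
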