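import Pool.Agent.J6H9.EX.Stm

/-!
# Project EX, second part: every Erdős–Ulam ideal is of the form `W w d`
-/

set_option autoImplicit false

namespace Pool.Agent.J6H9.EX

open Filter Topology Pool.Agent.J6H9.EU

/-- **EX-POS** (50 lines). One can take positive weights. PROOF. `g n = f n + (1 / 2) ^ n`; the sums over subsets of
`[0, n)` change by at most `2`, and `∑_{i < n} f i → ∞`. -/
def S_POS : Prop := ∀ f : ℕ → ℝ, (∀ n, 0 ≤ f n) → Tendsto (fun n => ∑ i ∈ Finset.range n, f i) atTop atTop →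
  Tendsto (fun n => f n / ∑ i ∈ Finset.range (n + 1), f i) atTop (𝓝 0) →
  ∃ g : ℕ → ℝ, (∀ n, 0 < g n) ∧ Tendsto (fun n => ∑ i ∈ Finset.range n, g i) atTop atTop ∧
    Tendsto (fun n => g n / ∑ i ∈ Finset.range (n + 1), g i) atTop (𝓝 0) ∧ EU f = EU g

/-- **EX-REP** (150 lines). PROOF. `F n = ∑_{i < n} f i`; `a 0 = 0`, `a (k + 1)` = the least `a > a k` with
`F a ≥ 2 * F (a k) + 1`; `d k = a (k + 1) - a k` (so `st d k = a k`); `w x = f x / (F (a (k + 1)) - F (a k))` for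
`x ∈ D_k` (total mass 1). As `F (a (k + 1)) - F (a k) ≥ F (a (k + 1)) / 2`, `w x ≤ 2 f x / F (x + 1) → 0`.
`EU f ⊆ W`: `∑_{A ∩ D_k} w ≤ 2 (∑_{A ∩ [0, a (k + 1))} f) / F (a (k + 1))`. `W ⊆ EU f`: let `m_i` be the `f`-mass of `D_i`,
`r_i = ∑_{A ∩ D_i} w → 0`; for `a k < N ≤ a (k + 1)`: `∑_{A ∩ [0, N)} f ≤ ∑_{i ≤ k} r_i m_i`, and
`m_k ≤ F (a k) + 1 + f (a (k + 1) - 1)`, `f (a (k + 1) - 1) ≤ F (a (k + 1)) / 4` for large `k`, so `m_k ≤ 4 F (a k)` for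
large `k`; `F N ≥ F (a k) = ∑_{i < k} m_i → ∞`. -/
def S_REP : Prop := ∀ f : ℕ → ℝ, (∀ n, 0 < f n) → Tendsto (fun n => ∑ i ∈ Finset.range n, f i) atTop atTop →
  Tendsto (fun n => f n / ∑ i ∈ Finset.range (n + 1), f i) atTop (𝓝 0) →
  ∃ (w : ℕ → ℝ) (d : ℕ → ℕ), Meas w d ∧ EU f = W w d

end Pool.Agent.J6H9.EX
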